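import Mathlib
import Pool.Agent.Y527.LA.Cor

/-!
# Boolean combinations of 1-limited automata: one exponential in the number of states, linear time

Let `M 1, …, M k` be 1-limited automata (LAs) over the same alphabet `A`, with `s` states
altogether, and let `F` be any Boolean function of `k` variables. Then the Boolean combination `F`
of their languages is accepted by a deterministic LA with at most `2 ^ ((s ^ 2 + s + 5) ^ 2)` states.
The bound depends neither on the input alphabet nor on the work alphabets. The deterministic LA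
replaces each letter by a copy of the letter with one bit, and it halts on every input `w` after at
most `q (|w| + 1)` moves, where `q` is the number of its states. So determinization, complementation
and all Boolean operations together have a singly exponential cost, `2 ^ ((n + 2) ^ 4)` in terms of
the size and `2 ^ ((s ^ 2 + s + 5) ^ 2)` in terms of the number of states.

More precisely the cost is quasi-polynomial, `2 ^ O(log ^ 2 r)`, in the number `r` of pairs
(table of the visited part of the tape, state) which occur when a new cell is entered. For LAs which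
are deterministic on the visited cells this gives `2 ^ O(n ^ 2 log ^ 2 n)`.

Proof. A nondeterministic one-way automaton `N` runs the automata of these pairs of all the `M i`
side by side; the deterministic LA annotates the blocks of `2 ^ h` cells (`2 ^ h > r`) by the sets of
the reachable states of `N` and finds them by the procedure of Savitch (this part is from
`Pool/Agent/H630R2/LA/`); at the end of the input it decides which of the `M i` accept by running
its final program once for each of them, and evaluates `F`. None of its programs has a loop, and so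
the number of moves between two first visits is at most the number of its states.
-/

set_option autoImplicit false

namespace Pool.Agent.Results.MP_0036f5_lc.StateCost

open Pool.Agent.H630R2.LA Filter
open Pool.Agent.Y527.LA (Steps numTabs VisitedDet numTabs_le numTabs_visitedDet exists_comb)

/-- The Boolean combination `F` of the languages of the automata `M i`. -/
def combine (strict : Prop) {A : Type} {k : ℕ} (M : Fin k → LimAut A)
    (F : (Fin k → Prop) → Prop) : Set (List A) :=
  {w | F (fun i => w ∈ (M i).language strict)}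

/-- No computation of `M` on an input `w` has more than `q (|w| + 1)` moves, where `q` is the number
of states, for both readings of the rule that visited cells are frozen. -/
def LinearTime {A : Type} (M : LimAut A) : Prop :=
  ∀ (strict : Prop) (w : List A) (m : ℕ) (c : Cfg M),
    Steps (Step strict w.length) m (init M w) c → m ≤ Nat.card M.Q * (w.length + 1)

/-- The values `detSize L`, for the Boolean combinations `L` of the languages of at least one and
finitely many 1-limited automata of total size at most `n`. -/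
def costsB (strict : Prop) (n : ℕ) : Set ℕ :=
  {s | ∃ (A : Type) (_ : Finite A) (k : ℕ) (M : Fin k → LimAut A) (F : (Fin k → Prop) → Prop),
    0 < k ∧ ∑ i, (M i).size ≤ n ∧ s = detSize strict (combine strict M F)}

/-- The cost of determinizing Boolean combinations. -/
noncomputable def DB (strict : Prop) (n : ℕ) : ℕ := sSup (costsB strict n)

/-- The least number of states of a deterministic 1-limited automaton (with any work alphabet) with
the language `L`. -/
noncomputable def detStates (strict : Prop) {A : Type} (L : Set (List A)) : ℕ :=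
  sInf {q | ∃ M : LimAut A, M.Deterministic ∧ M.language strict = L ∧ Nat.card M.Q = q}

/-- The values `detStates L`, for the Boolean combinations `L` of the languages of at least one
and finitely many 1-limited automata, over any alphabet, with at most `s` states altogether. -/
def costsS (strict : Prop) (s : ℕ) : Set ℕ :=
  {q | ∃ (A : Type) (_ : Finite A) (k : ℕ) (M : Fin k → LimAut A) (F : (Fin k → Prop) → Prop),
    0 < k ∧ ∑ i, Nat.card (M i).Q ≤ s ∧ q = detStates strict (combine strict M F)}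

/-- The cost in terms of states. -/
noncomputable def DS (strict : Prop) (s : ℕ) : ℕ := sSup (costsS strict s)

/-- The values `detSize L(M)`, for the `M` of size at most `n` which are deterministic on the
visited cells. -/
def costsV (strict : Prop) (n : ℕ) : Set ℕ :=
  {s | ∃ (A : Type) (_ : Finite A) (M : LimAut A), VisitedDet strict M ∧ M.size ≤ n ∧
    s = detSize strict (M.language strict)}

/-- The cost for automata which are deterministic on the visited cells. -/
noncomputable def DV (strict : Prop) (n : ℕ) : ℕ := sSup (costsV strict n)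

section

variable {strict : Prop}

theorem general {A : Type} [Finite A] {k : ℕ} (M : Fin k → LimAut A)
    (F : (Fin k → Prop) → Prop) (h : ℕ) (hh : 1 ≤ h)
    (hr : ∑ i, numTabs strict (M i) + 1 ≤ 2 ^ h) :
    ∃ M' : LimAut A, M'.Deterministic ∧
      (∀ strict' : Prop, M'.language strict' = combine strict M F) ∧
      Nat.card M'.Q ≤ 2 ^ (h ^ 2 + 6 * h + 8 + k) ∧ Nat.card M'.W = 3 * Nat.card A + 1 ∧
      M'.size ≤ 2 ^ (h ^ 2 + 6 * h + 13 + k) * (Nat.card A + 1) ∧ LinearTime M' := by
  obtain ⟨M', h1, h2, h3, h4, h5, h6⟩ := exists_comb strict M F h hh hr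
  exact ⟨M', h1, fun strict' => Set.ext (h2 strict'), h3, h4, h5, h6⟩

theorem sum_sq_le {k : ℕ} (a : Fin k → ℕ) :
    ∑ i, 2 ^ (a i * a i) * a i + 1 ≤ 2 ^ ((∑ i, a i) ^ 2 + (∑ i, a i) + 1) := by
  have h1 : ∀ i, 2 ^ (a i * a i) * a i ≤ 2 ^ ((∑ i, a i) ^ 2) * a i := by
    intro i
    apply Nat.mul_le_mul_right
    apply Nat.pow_le_pow_right (by omega)
    have h2 : a i ≤ ∑ i, a i :=
      Finset.single_le_sum (f := a) (fun _ _ => Nat.zero_le _) (Finset.mem_univ i)
    rw [sq]
    exact Nat.mul_le_mul h2 h2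
  have h2 : ∑ i, 2 ^ (a i * a i) * a i ≤ 2 ^ ((∑ i, a i) ^ 2) * ∑ i, a i := by
    rw [Finset.mul_sum]
    exact Finset.sum_le_sum fun i _ => h1 i
  generalize ∑ i, a i = s at *
  have h3 : s + 1 ≤ 2 ^ s := Nat.lt_two_pow_self
  have h4 : 1 ≤ 2 ^ (s ^ 2) := Nat.one_le_two_pow
  calc ∑ i, 2 ^ (a i * a i) * a i + 1 ≤ 2 ^ (s ^ 2) * s + 2 ^ (s ^ 2) := by omega
    _ = 2 ^ (s ^ 2) * (s + 1) := by ring
    _ ≤ 2 ^ (s ^ 2) * 2 ^ s := Nat.mul_le_mul_left _ h3
    _ = 2 ^ (s ^ 2 + s) := by rw [pow_add]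
    _ ≤ _ := Nat.pow_le_pow_right (by omega) (by omega)

theorem states {A : Type} [Finite A] {k : ℕ} (M : Fin k → LimAut A)
    (F : (Fin k → Prop) → Prop) (s : ℕ) (hs : ∑ i, Nat.card (M i).Q = s) :
    ∃ M' : LimAut A, M'.Deterministic ∧
      (∀ strict' : Prop, M'.language strict' = combine strict M F) ∧
      Nat.card M'.Q ≤ 2 ^ ((s ^ 2 + s + 5) ^ 2) ∧ Nat.card M'.W = 3 * Nat.card A + 1 ∧
      M'.size ≤ 2 ^ ((s ^ 2 + s + 5) ^ 2) * (Nat.card A + 1) ∧ LinearTime M' := by
  have hk : k ≤ s := by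
    rw [← hs]
    have h1 : ∀ i : Fin k, 1 ≤ Nat.card (M i).Q := by
      intro i
      have := (M i).finQ
      have : Nonempty (M i).Q := ⟨(M i).q0⟩
      exact Nat.card_pos
    calc k = ∑ _i : Fin k, 1 := by simp
      _ ≤ _ := Finset.sum_le_sum fun i _ => h1 i
  have hr : ∑ i, numTabs strict (M i) + 1 ≤ 2 ^ (s ^ 2 + s + 1) := by
    have h1 := sum_sq_le (fun i => Nat.card (M i).Q)
    rw [hs] at h1
    refine le_trans (Nat.add_le_add_right (Finset.sum_le_sum fun i _ => ?_) 1) h1
    exact numTabs_le strict (M i)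
  obtain ⟨M', h1, h2, h3, h4, h5, h6⟩ := general M F (s ^ 2 + s + 1) (by omega) hr
  refine ⟨M', h1, h2, h3.trans (Nat.pow_le_pow_right (by omega) ?_), h4,
    h5.trans (Nat.mul_le_mul_right _ (Nat.pow_le_pow_right (by omega) ?_)), h6⟩
  · generalize hX : s ^ 2 + s = X
    have hsX : s ≤ X := by omega
    nlinarith
  · generalize hX : s ^ 2 + s = X
    have hsX : s ≤ X := by omega
    nlinarith

theorem combine_one {A : Type} (M : LimAut A) :
    combine strict (fun _ : Fin 1 => M) (fun v => v 0) = M.language strict := rfl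

theorem detSize_combine {A : Type} [Finite A] {k : ℕ} (hk : 0 < k) (M : Fin k → LimAut A)
    (F : (Fin k → Prop) → Prop) (n : ℕ) (hn : ∑ i, (M i).size ≤ n) :
    detSize strict (combine strict M F) ≤ 2 ^ ((n + 2) ^ 4) := by
  obtain ⟨M', h1, h2, _, _, h5, _⟩ := states (strict := strict) M F _ rfl
  have h6 : detSize strict (combine strict M F) ≤ M'.size := Nat.sInf_le ⟨M', h1, h2 strict, rfl⟩
  refine (h6.trans h5).trans ?_
  have h7 : ∀ i, Nat.card (M i).Q + (Nat.card A + 3) ≤ (M i).size := by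
    intro i
    unfold LimAut.size
    omega
  have h8 : ∑ i, Nat.card (M i).Q + (Nat.card A + 3) ≤ n := by
    refine le_trans ?_ hn
    refine le_trans ?_ (Finset.sum_le_sum fun i _ => h7 i)
    rw [Finset.sum_add_distrib]
    have h9 : ∑ _i : Fin k, (Nat.card A + 3) = k * (Nat.card A + 3) := by simp
    rw [h9]
    exact Nat.add_le_add_left (Nat.le_mul_of_pos_left _ hk) _
  generalize ∑ i, Nat.card (M i).Q = s at *
  generalize Nat.card A = a at *
  have h9 : a + 1 ≤ 2 ^ a := Nat.lt_two_pow_self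
  calc 2 ^ ((s ^ 2 + s + 5) ^ 2) * (a + 1) ≤ 2 ^ ((s ^ 2 + s + 5) ^ 2) * 2 ^ a :=
        Nat.mul_le_mul_left _ h9
    _ = 2 ^ ((s ^ 2 + s + 5) ^ 2 + a) := by rw [pow_add]
    _ ≤ 2 ^ ((n + 2) ^ 4) := by
        apply Nat.pow_le_pow_right (by omega)
        have h10 : s ^ 2 + s + 5 + a ≤ (n + 2) ^ 2 := by
          have h11 : (s + a + 5) ^ 2 ≤ (n + 2) ^ 2 := Nat.pow_le_pow_left (by omega) 2
          nlinarith [Nat.zero_le s, Nat.zero_le a, Nat.zero_le (s * a), Nat.zero_le (a ^ 2)]
        calc (s ^ 2 + s + 5) ^ 2 + a ≤ (s ^ 2 + s + 5 + a) ^ 2 := by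
              nlinarith [Nat.zero_le s, Nat.zero_le a, Nat.zero_le (s * a),
                Nat.zero_le (s ^ 2 * a), Nat.zero_le (a ^ 2)]
          _ ≤ ((n + 2) ^ 2) ^ 2 := Nat.pow_le_pow_left h10 2
          _ = (n + 2) ^ 4 := by ring

theorem mem_costsB_le (n s : ℕ) (hs : s ∈ costsB strict n) : s ≤ 2 ^ ((n + 2) ^ 4) := by
  obtain ⟨A, hA, k, M, F, hk, hn, rfl⟩ := hs
  exact detSize_combine hk M F n hn

theorem DB_le (n : ℕ) : DB strict n ≤ 2 ^ ((n + 2) ^ 4) := by
  unfold DB
  rcases Set.eq_empty_or_nonempty (costsB strict n) with h | h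
  · rw [h, csSup_empty]
    exact Nat.zero_le _
  · exact csSup_le h (mem_costsB_le n)

theorem costs_sub (n : ℕ) : costs strict n ⊆ costsB strict n := by
  rintro s ⟨A, hA, M, hM, rfl⟩
  exact ⟨A, hA, 1, fun _ => M, fun v => v 0, by omega, by simpa using hM, rfl⟩

theorem D_le_DB (n : ℕ) : D strict n ≤ DB strict n := by
  unfold D DB
  rcases Set.eq_empty_or_nonempty (costs strict n) with h | h
  · rw [h, csSup_empty]
    exact Nat.zero_le _
  · exact csSup_le_csSup ⟨_, mem_costsB_le n⟩ h (costs_sub n)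

theorem costs_nonempty (n : ℕ) (hn : 4 ≤ n) : (costs strict n).Nonempty := by
  refine ⟨_, Empty, inferInstance, (⟨Unit, Empty, inferInstance, inferInstance, id,
    fun _ _ h => h, fun _ _ => ∅, (), ∅⟩ : LimAut Empty), ?_, rfl⟩
  refine le_trans (le_of_eq ?_) hn
  unfold LimAut.size LimAut.numTrans
  simp

theorem D_lower (n : ℕ) (hn : 66500 ≤ n) : 2 ^ (n ^ 2) ≤ D strict n ^ 4000000 := by
  obtain ⟨m, hm, h1, h2⟩ : ∃ m, 49 ≤ m ∧ 1330 * (m + 1) ≤ n ∧ n ≤ 1330 * (m + 2) :=
    ⟨n / 1330 - 1, by omega, by omega, by omega⟩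
  have hbdd : BddAbove (costs strict n) := ⟨_, fun s hs => mem_costsB_le n s (costs_sub n hs)⟩
  have h3 : detSize strict ((Pool.Agent.TH705.LB.witM m).language strict) ≤ D strict n :=
    le_csSup hbdd ⟨_, inferInstance, Pool.Agent.TH705.LB.witM m,
      (Pool.Agent.TH705.LB.size_witM m).trans h1, rfl⟩
  have h4 : 2 ^ (m ^ 2) ≤
      detSize strict ((Pool.Agent.TH705.LB.witM m).language strict) ^ 2 := by
    obtain ⟨M', h1, h2, -⟩ := upper (Pool.Agent.TH705.LB.witM m) strict
    have hne : {s | ∃ M : LimAut Pool.Agent.TH705.LB.Ltr, M.Deterministic ∧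
        M.language strict = (Pool.Agent.TH705.LB.witM m).language strict ∧
        M.size = s}.Nonempty := ⟨_, M', h1, h2, rfl⟩
    obtain ⟨M, h3, h4, h5⟩ := Nat.sInf_mem hne
    have h6 : M.size = detSize strict ((Pool.Agent.TH705.LB.witM m).language strict) := h5
    rw [← h6]
    exact Pool.Agent.TH705.LB.lower m strict M h3 h4
  have h5 : n ^ 2 ≤ m ^ 2 * 2000000 := by
    have h6 : n ^ 2 ≤ (1330 * (m + 2)) ^ 2 := Nat.pow_le_pow_left h2 2
    nlinarith
  calc 2 ^ (n ^ 2) ≤ 2 ^ (m ^ 2 * 2000000) := Nat.pow_le_pow_right (by omega) h5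
    _ = (2 ^ (m ^ 2)) ^ 2000000 := by rw [pow_mul]
    _ ≤ (detSize strict ((Pool.Agent.TH705.LB.witM m).language strict) ^ 2) ^ 2000000 :=
        Nat.pow_le_pow_left h4 _
    _ ≤ (D strict n ^ 2) ^ 2000000 := Nat.pow_le_pow_left (Nat.pow_le_pow_left h3 2) _
    _ = D strict n ^ 4000000 := by rw [← pow_mul]

theorem mem_costsS_le (s q : ℕ) (hq : q ∈ costsS strict s) : q ≤ 2 ^ ((s ^ 2 + s + 5) ^ 2) := by
  obtain ⟨A, hA, k, M, F, hk, hs, rfl⟩ := hq
  obtain ⟨M', h1, h2, h3, _⟩ := states (strict := strict) M F _ rfl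
  have h4 : detStates strict (combine strict M F) ≤ Nat.card M'.Q :=
    Nat.sInf_le ⟨M', h1, h2 strict, rfl⟩
  refine (h4.trans h3).trans (Nat.pow_le_pow_right (by omega) (Nat.pow_le_pow_left ?_ 2))
  have h5 := Nat.pow_le_pow_left hs 2
  omega

theorem DS_le (s : ℕ) : DS strict s ≤ 2 ^ ((s ^ 2 + s + 5) ^ 2) := by
  unfold DS
  rcases Set.eq_empty_or_nonempty (costsS strict s) with h | h
  · rw [h, csSup_empty]
    exact Nat.zero_le _
  · exact csSup_le h (mem_costsS_le s)

theorem DS_lower (s : ℕ) (hs : 20 ≤ s) : 2 ^ (s ^ 2) ≤ (DS strict s + 1) ^ 1800 := by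
  obtain ⟨m, hm, h1, h2⟩ : ∃ m, 1 ≤ m ∧ 10 * (m + 1) ≤ s ∧ s ≤ 10 * m + 19 :=
    ⟨s / 10 - 1, by omega, by omega, by omega⟩
  have hcard : Nat.card (Pool.Agent.TH705.LB.witM m).Q ≤ s := by
    have e : Nat.card (Pool.Agent.TH705.LB.witM m).Q =
        Nat.card Pool.Agent.TH705.LB.Tag * (m + 1) := by
      show Nat.card (Pool.Agent.TH705.LB.Tag × Fin (m + 1)) = _
      rw [Nat.card_prod]
      simp
    rw [e]
    exact (Nat.mul_le_mul_right _ Pool.Agent.TH705.LB.card_Tag).trans h1
  have h3 : detStates strict ((Pool.Agent.TH705.LB.witM m).language strict) ≤ DS strict s := by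
    refine le_csSup ⟨_, mem_costsS_le s⟩ ?_
    exact ⟨_, inferInstance, 1, fun _ => Pool.Agent.TH705.LB.witM m, fun v => v 0, by omega,
      by simpa using hcard, rfl⟩
  have h4 : 2 ^ (m ^ 2) ≤
      (detStates strict ((Pool.Agent.TH705.LB.witM m).language strict) + 1) ^ 2 := by
    obtain ⟨M', h1, h2, -⟩ := upper (Pool.Agent.TH705.LB.witM m) strict
    have hne : {q | ∃ M : LimAut Pool.Agent.TH705.LB.Ltr, M.Deterministic ∧
        M.language strict = (Pool.Agent.TH705.LB.witM m).language strict ∧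
        Nat.card M.Q = q}.Nonempty := ⟨_, M', h1, h2, rfl⟩
    obtain ⟨M, h3, h4, h5⟩ := Nat.sInf_mem hne
    have h6 : Nat.card M.Q =
        detStates strict ((Pool.Agent.TH705.LB.witM m).language strict) := h5
    rw [← h6]
    have h7 := Pool.Agent.TH705.LB.lowerQ m strict M h3 h4
    nlinarith
  have h5 : s ^ 2 ≤ m ^ 2 * 900 := by
    have h6 : s ≤ 30 * m := by omega
    have h7 := Nat.pow_le_pow_left h6 2
    nlinarith
  calc 2 ^ (s ^ 2) ≤ 2 ^ (m ^ 2 * 900) := Nat.pow_le_pow_right (by omega) h5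
    _ = (2 ^ (m ^ 2)) ^ 900 := by rw [pow_mul]
    _ ≤ ((detStates strict ((Pool.Agent.TH705.LB.witM m).language strict) + 1) ^ 2) ^ 900 :=
        Nat.pow_le_pow_left h4 _
    _ ≤ ((DS strict s + 1) ^ 2) ^ 900 :=
        Nat.pow_le_pow_left (Nat.pow_le_pow_left (Nat.add_le_add_right h3 1) 2) _
    _ = (DS strict s + 1) ^ 1800 := by rw [← pow_mul]

theorem visited {A : Type} [Finite A] (M : LimAut A) (hM : VisitedDet strict M) (n : ℕ)
    (hn : M.size ≤ n) : ∃ M' : LimAut A, M'.Deterministic ∧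
      (∀ strict' : Prop, M'.language strict' = M.language strict) ∧
      M'.size ≤ 2 ^ (5 * n ^ 2 * (Nat.log 2 n + 1) ^ 2) ∧ LinearTime M' := by
  have hs : Nat.card M.Q + Nat.card A + 3 ≤ n := by
    refine le_trans ?_ hn
    unfold LimAut.size
    omega
  have hs1 : 1 ≤ Nat.card M.Q := by
    have := M.finQ
    have : Nonempty M.Q := ⟨M.q0⟩
    exact Nat.card_pos
  have hlog : n < 2 ^ (Nat.log 2 n + 1) := Nat.lt_pow_succ_log_self (by omega) n
  have hL : 1 ≤ Nat.log 2 n := by
    have h1 : Nat.log 2 2 ≤ Nat.log 2 n := Nat.log_mono_right (by omega)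
    have h2 : Nat.log 2 2 = 1 := by
      have := Nat.log_pow (b := 2) (by omega) 1
      rwa [pow_one] at this
    omega
  have hr : ∑ i : Fin 1, numTabs strict ((fun _ : Fin 1 => M) i) + 1 ≤
      2 ^ ((Nat.card M.Q + 1) * (Nat.log 2 n + 1)) := by
    have h1 := numTabs_visitedDet hM
    have h2 : ∑ i : Fin 1, numTabs strict ((fun _ : Fin 1 => M) i) = numTabs strict M := by simp
    rw [h2]
    generalize Nat.card M.Q = s at *
    have h3 : 1 ≤ (s + 1) ^ s := Nat.one_le_pow _ _ (by omega)
    calc numTabs strict M + 1 ≤ (s + 1) ^ s * s + (s + 1) ^ s := by omega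
      _ = (s + 1) ^ (s + 1) := by ring
      _ ≤ (2 ^ (Nat.log 2 n + 1)) ^ (s + 1) := Nat.pow_le_pow_left (by omega) _
      _ = _ := by rw [← pow_mul, mul_comm]
  obtain ⟨M', h1, h2, _, _, h5, h6⟩ := general (fun _ : Fin 1 => M) (fun v => v 0)
    ((Nat.card M.Q + 1) * (Nat.log 2 n + 1)) (Nat.mul_pos (by omega) (by omega)) hr
  refine ⟨M', h1, h2, h5.trans ?_, h6⟩
  generalize Nat.card M.Q = s at *
  generalize Nat.card A = a at *
  generalize Nat.log 2 n = L at *
  have h9 : a + 1 ≤ 2 ^ a := Nat.lt_two_pow_self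
  have hX : (s + 1) * (L + 1) ≤ n * (L + 1) := Nat.mul_le_mul_right _ (by omega)
  have hXn : n ≤ n * (L + 1) := Nat.le_mul_of_pos_right _ (by omega)
  have h8 : 8 ≤ n * (L + 1) := by
    calc 8 = 4 * 2 := rfl
      _ ≤ n * (L + 1) := Nat.mul_le_mul (by omega) (by omega)
  have e : 5 * n ^ 2 * (L + 1) ^ 2 = 5 * (n * (L + 1)) ^ 2 := by ring
  rw [e]
  calc 2 ^ (((s + 1) * (L + 1)) ^ 2 + 6 * ((s + 1) * (L + 1)) + 13 + 1) * (a + 1)
      ≤ 2 ^ (((s + 1) * (L + 1)) ^ 2 + 6 * ((s + 1) * (L + 1)) + 13 + 1) * 2 ^ a :=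
        Nat.mul_le_mul_left _ h9
    _ = 2 ^ (((s + 1) * (L + 1)) ^ 2 + 6 * ((s + 1) * (L + 1)) + 13 + 1 + a) :=
        (pow_add _ _ _).symm
    _ ≤ _ := by
        apply Nat.pow_le_pow_right (by omega)
        have ha : a ≤ n * (L + 1) := by omega
        generalize n * (L + 1) = Y at *
        generalize (s + 1) * (L + 1) = X at *
        have h10 : X ^ 2 ≤ Y ^ 2 := Nat.pow_le_pow_left hX 2
        nlinarith

theorem DV_le (n : ℕ) : DV strict n ≤ 2 ^ (5 * n ^ 2 * (Nat.log 2 n + 1) ^ 2) := by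
  unfold DV
  rcases Set.eq_empty_or_nonempty (costsV strict n) with h | h
  · rw [h, csSup_empty]
    exact Nat.zero_le _
  · refine csSup_le h ?_
    rintro s ⟨A, hA, M, hM, hn, rfl⟩
    obtain ⟨M', h1, h2, h3, _⟩ := visited M hM n hn
    have h4 : detSize strict (M.language strict) ≤ M'.size :=
      Nat.sInf_le ⟨M', h1, h2 strict, rfl⟩
    exact h4.trans h3

end

/-- **Boolean combinations of 1-limited automata are determinized at the cost of one exponential in
the number of states, in linear time.** -/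
theorem result (strict : Prop) :
    -- (1) in terms of the number of states
    (∀ (A : Type) [Finite A] (k : ℕ) (M : Fin k → LimAut A) (F : (Fin k → Prop) → Prop) (s : ℕ),
      ∑ i, Nat.card (M i).Q = s → ∃ M' : LimAut A, M'.Deterministic ∧
        (∀ strict' : Prop, M'.language strict' = combine strict M F) ∧
        Nat.card M'.Q ≤ 2 ^ ((s ^ 2 + s + 5) ^ 2) ∧ Nat.card M'.W = 3 * Nat.card A + 1 ∧
        M'.size ≤ 2 ^ ((s ^ 2 + s + 5) ^ 2) * (Nat.card A + 1) ∧ LinearTime M') ∧
    -- (2) in terms of the number of pairs (table, state)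
    (∀ (A : Type) [Finite A] (k : ℕ) (M : Fin k → LimAut A) (F : (Fin k → Prop) → Prop) (h : ℕ),
      1 ≤ h → ∑ i, numTabs strict (M i) + 1 ≤ 2 ^ h → ∃ M' : LimAut A, M'.Deterministic ∧
        (∀ strict' : Prop, M'.language strict' = combine strict M F) ∧
        Nat.card M'.Q ≤ 2 ^ (h ^ 2 + 6 * h + 8 + k) ∧ Nat.card M'.W = 3 * Nat.card A + 1 ∧
        M'.size ≤ 2 ^ (h ^ 2 + 6 * h + 13 + k) * (Nat.card A + 1) ∧ LinearTime M') ∧
    -- (3) the numbers of pairs
    (∀ (A : Type) (M : LimAut A),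
      numTabs strict M ≤ 2 ^ (Nat.card M.Q * Nat.card M.Q) * Nat.card M.Q ∧
      (VisitedDet strict M →
        numTabs strict M ≤ (Nat.card M.Q + 1) ^ Nat.card M.Q * Nat.card M.Q)) ∧
    -- (4) the cost functions in terms of the size
    (∀ n : ℕ, 4 ≤ n → IsGreatest (costs strict n) (D strict n) ∧
      IsGreatest (costsB strict n) (DB strict n)) ∧
    (∀ n : ℕ, D strict n ≤ DB strict n ∧ DB strict n ≤ 2 ^ ((n + 2) ^ 4)) ∧
    (∀ n : ℕ, 66500 ≤ n → 2 ^ (n ^ 2) ≤ D strict n ^ 4000000) ∧
    -- (5) the cost function in terms of the number of states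
    (∀ s : ℕ, DS strict s ≤ 2 ^ ((s ^ 2 + s + 5) ^ 2)) ∧
    (∀ s : ℕ, 20 ≤ s → 2 ^ (s ^ 2) ≤ (DS strict s + 1) ^ 1800) ∧
    -- (6) automata which are deterministic on the visited cells
    (∀ n : ℕ, DV strict n ≤ 2 ^ (5 * n ^ 2 * (Nat.log 2 n + 1) ^ 2)) := by
  refine ⟨fun A _ k M F s hs => states M F s hs, fun A _ k M F h hh hr => general M F h hh hr,
    fun A M => ⟨numTabs_le strict M, fun h => numTabs_visitedDet h⟩, ?_,
    fun n => ⟨D_le_DB n, DB_le n⟩, fun n hn => D_lower n hn, DS_le, DS_lower, DV_le⟩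
  intro n hn
  have h1 : (costs strict n).Nonempty := costs_nonempty n hn
  have h2 : BddAbove (costsB strict n) := ⟨_, mem_costsB_le n⟩
  have h3 : BddAbove (costs strict n) := h2.mono (costs_sub n)
  exact ⟨⟨Nat.sSup_mem h1 h3, fun s hs => le_csSup h3 hs⟩,
    ⟨Nat.sSup_mem (h1.mono (costs_sub n)) h2, fun s hs => le_csSup h2 hs⟩⟩

end Pool.Agent.Results.MP_0036f5_lc.StateCost
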