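import Mathlib
import Pool.Agent.Y527.LA.NoCh
import Pool.Agent.Y527.LA.OneWay
import Pool.Agent.TH588.WD.Size

/-!
# The two kinds of nondeterminism of 1-limited automata: what to write and where to move

A 1-limited automaton (LA) guesses what it writes in a cell at the first visit, and it guesses its
moves. This file determines the cost of removing the first kind of guesses: for every class `C` of
LAs which contains the one-way nondeterministic finite automata and whose members have no choice
what to write (they may move nondeterministically, and the symbols written may depend on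
everything seen before), the cost of converting LAs to automata of the class `C` is `2 ^ Θ(n ^ 2)`.
The second kind of guesses can be removed at a quasi-polynomial cost. So the cost `D(n)` of
determinizing LAs lies between `W(n)` and `2 ^ (170 (log₂ W(n) + 1) ^ 2)`, where `W(n) = 2 ^ Θ(n ^ 2)`
is the cost of removing the choice what to write; in particular it is singly exponential.

Proof. Upper bound: the one-way automaton of the pairs (table of the visited part of the tape,
state). Lower bound: for an automaton without choice what to write the table of the visited part and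
the set of the states in which the next cell is entered are functions of the visited part of the
input, and there are words for all the sets of `m × m` matrices with entries `0, 1` which no two of
these pairs can confuse. The determinization of automata without choice what to write, which uses
the procedure of Savitch, is in `Pool/Agent/TH588/WD/`, the witness in `Pool/Agent/TH705/LB/`.
-/

set_option autoImplicit false

namespace Pool.Agent.Results.MP_0036f5_lc.WritingChoice

open Pool.Agent.H630R2.LA Filter Relation
open Pool.Agent.Y527.LA (NoChoice OneWay NeverRewrites nfaM nfaM_oneWay nfaM_never nfaM_language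
  nfaM_card nfaM_size lowerNC lowerD)

/-- A class of 1-limited automata, for all input alphabets. -/
abbrev Cls : Type 1 := ∀ A : Type, LimAut A → Prop

/-- The least size of an automaton of the class `C` with the language `L`. -/
noncomputable def sizeIn (C : Cls) (strict : Prop) {A : Type} (L : Set (List A)) : ℕ :=
  sInf {s | ∃ M : LimAut A, C A M ∧ M.language strict = L ∧ M.size = s}

/-- The values `sizeIn C L(M)`, for all 1-limited automata `M` of size at most `n`. -/
def costsIn (C : Cls) (strict : Prop) (n : ℕ) : Set ℕ :=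
  {s | ∃ (A : Type) (_ : Finite A) (M : LimAut A), M.size ≤ n ∧
    s = sizeIn C strict (M.language strict)}

/-- The cost of the conversion of 1-limited automata to automata of the class `C`. -/
noncomputable def cost (C : Cls) (strict : Prop) (n : ℕ) : ℕ := sSup (costsIn C strict n)

/-- The class `C` contains all one-way automata that never rewrite, and its members have no choice
what to write. -/
structure Between (strict : Prop) (C : Cls) : Prop where
  oneWay : ∀ (A : Type) (M : LimAut A), OneWay M → NeverRewrites M → C A M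
  noChoice : ∀ (A : Type) (M : LimAut A), C A M → NoChoice strict M

/-- One-way nondeterministic finite automata. -/
def clsOneWay : Cls := fun _ M => OneWay M ∧ NeverRewrites M

/-- Two-way nondeterministic finite automata. -/
def clsTwoWay : Cls := fun _ M => NeverRewrites M

/-- The automata without choice what to write. -/
def clsNoChoice (strict : Prop) : Cls := fun _ M => NoChoice strict M

theorem noChoice_of_never {A : Type} (strict : Prop) (M : LimAut A) (h : NeverRewrites M) :
    NoChoice strict M := by
  intro w c c' h1 h2 h3 h4 h5 h6 h7 h8 q b d q' b' d' h10 h11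
  obtain ⟨m, hm', hseen, htape, -⟩ := forward w c h1
  have hlt : m < c.pos := by
    by_contra hcon
    exact h6 ((hseen c.pos h3).2 (by omega))
  obtain ⟨i, hi⟩ : ∃ i, c.pos = i + 1 := ⟨c.pos - 1, by omega⟩
  have hcell : c.tape c.pos = .sym (M.inp w[i]) := by
    rw [htape c.pos hlt, hi]
    simp only [initTape, List.getElem?_eq_getElem (show i < w.length by omega)]
  rw [hcell] at h10 h11
  have e1 : Sym.sym b = Sym.sym (M.inp w[i]) := h _ _ _ h10
  have e2 : Sym.sym b' = Sym.sym (M.inp w[i]) := h _ _ _ h11
  have e3 := e1.trans e2.symm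
  simpa using e3

theorem noChoice_of_deterministic {A : Type} (strict : Prop) (M : LimAut A)
    (hd : M.Deterministic) : NoChoice strict M := by
  have seen_mono : ∀ {n : ℕ} {c c' : Cfg M}, ReflTransGen (Step strict n) c c' →
      c.seen ⊆ c'.seen := by
    intro n c c' h
    induction h with
    | refl => exact subset_rfl
    | tail _ hs ih =>
      obtain ⟨_, q, b, d, _, _, _, _, _, hs', _⟩ := hs
      rw [hs']
      exact ih.trans (Set.subset_insert _ _)
  have eq_of_first : ∀ {n : ℕ} {c c' : Cfg M}, ReflTransGen (Step strict n) c c' →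
      c'.pos = c.pos → c'.pos ∉ c'.seen → c = c' := by
    intro n c c' h hp hs
    rcases ReflTransGen.cases_head h with h1 | ⟨c'', h1, h2⟩
    · exact h1
    · exfalso
      apply hs
      apply seen_mono h2
      obtain ⟨_, q, b, d, _, _, _, _, _, hs', _⟩ := h1
      rw [hs', hp]
      exact Set.mem_insert _ _
  intro w c c' h1 h2 h3 h4 h5 h6 h7 h8 q b d q' b' d' h10 h11
  have hru : Relator.RightUnique (Step strict (M := M) w.length) :=
    fun _ _ _ h1 h2 => Step.unique hd h1 h2
  have he : c = c' := by
    rcases ReflTransGen.total_of_right_unique hru h1 h2 with h | h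
    · exact eq_of_first h h5 h7
    · exact (eq_of_first h h5.symm h6).symm
  subst he
  have := hd _ _ h10 h11
  simp only [Prod.mk.injEq] at this
  exact this.2.1

theorem between_oneWay (strict : Prop) : Between strict clsOneWay :=
  ⟨fun _ _ h1 h2 => ⟨h1, h2⟩, fun _ M h => noChoice_of_never strict M h.2⟩

theorem between_twoWay (strict : Prop) : Between strict clsTwoWay :=
  ⟨fun _ _ _ h2 => h2, fun _ M h => noChoice_of_never strict M h⟩

theorem between_noChoice (strict : Prop) : Between strict (clsNoChoice strict) :=
  ⟨fun _ M _ h2 => noChoice_of_never strict M h2, fun _ _ h => h⟩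

section

variable {strict : Prop} {C : Cls}

theorem sizeIn_le (hC : Between strict C) {A : Type} [Finite A] (M : LimAut A) :
    sizeIn C strict (M.language strict) ≤ 2 ^ (2 * M.size ^ 2) := by
  have h : sizeIn C strict (M.language strict) ≤ (nfaM strict M).size :=
    Nat.sInf_le ⟨_, hC.oneWay A _ nfaM_oneWay nfaM_never, nfaM_language strict, rfl⟩
  exact h.trans nfaM_size

theorem sizeIn_mem (hC : Between strict C) {A : Type} [Finite A] (M : LimAut A) :
    ∃ M' : LimAut A, C A M' ∧ M'.language strict = M.language strict ∧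
      M'.size = sizeIn C strict (M.language strict) := by
  have hne : {s | ∃ M' : LimAut A, C A M' ∧ M'.language strict = M.language strict ∧
      M'.size = s}.Nonempty :=
    ⟨_, _, hC.oneWay A _ nfaM_oneWay nfaM_never, nfaM_language strict, rfl⟩
  exact Nat.sInf_mem hne

theorem cost_bdd (hC : Between strict C) (n : ℕ) : BddAbove (costsIn C strict n) := by
  refine ⟨2 ^ (2 * n ^ 2), ?_⟩
  rintro s ⟨A, hA, M, hM, rfl⟩
  exact (sizeIn_le hC M).trans (Nat.pow_le_pow_right (by omega)
    (Nat.mul_le_mul_left _ (Nat.pow_le_pow_left hM 2)))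

theorem cost_le (hC : Between strict C) (n : ℕ) : cost C strict n ≤ 2 ^ (2 * n ^ 2) := by
  unfold cost
  rcases Set.eq_empty_or_nonempty (costsIn C strict n) with h | h
  · rw [h, csSup_empty]
    exact Nat.zero_le _
  · refine csSup_le h ?_
    rintro s ⟨A, hA, M, hM, rfl⟩
    exact (sizeIn_le hC M).trans (Nat.pow_le_pow_right (by omega)
      (Nat.mul_le_mul_left _ (Nat.pow_le_pow_left hM 2)))

theorem cost_lower (hC : Between strict C) (n : ℕ) (hn : 66500 ≤ n) :
    2 ^ (n ^ 2) ≤ cost C strict n ^ 4000000 := by
  obtain ⟨m, hm, h1, h2⟩ : ∃ m, 49 ≤ m ∧ 1330 * (m + 1) ≤ n ∧ n ≤ 1330 * (m + 2) :=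
    ⟨n / 1330 - 1, by omega, by omega, by omega⟩
  have hmem : sizeIn C strict ((Pool.Agent.TH705.LB.witM m).language strict) ∈
      costsIn C strict n :=
    ⟨_, inferInstance, Pool.Agent.TH705.LB.witM m,
      (Pool.Agent.TH705.LB.size_witM m).trans h1, rfl⟩
  have h3 : sizeIn C strict ((Pool.Agent.TH705.LB.witM m).language strict) ≤ cost C strict n :=
    le_csSup (cost_bdd hC n) hmem
  have h4 : 2 ^ (m ^ 2) ≤
      sizeIn C strict ((Pool.Agent.TH705.LB.witM m).language strict) ^ 2 := by
    obtain ⟨M', h5, h6, h7⟩ := sizeIn_mem hC (Pool.Agent.TH705.LB.witM m)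
    rw [← h7]
    have h8 := lowerNC m strict M' (hC.noChoice _ _ h5) h6
    have h9 : Nat.card M'.Q + 3 ≤ M'.size := by
      unfold LimAut.size
      omega
    have h10 : (Nat.card M'.Q + 3) ^ 2 ≤ M'.size ^ 2 := Nat.pow_le_pow_left h9 2
    nlinarith
  have h5 : n ^ 2 ≤ m ^ 2 * 2000000 := by
    have h6 : n ^ 2 ≤ (1330 * (m + 2)) ^ 2 := Nat.pow_le_pow_left h2 2
    nlinarith
  calc 2 ^ (n ^ 2) ≤ 2 ^ (m ^ 2 * 2000000) := Nat.pow_le_pow_right (by omega) h5
    _ = (2 ^ (m ^ 2)) ^ 2000000 := by rw [pow_mul]
    _ ≤ (sizeIn C strict ((Pool.Agent.TH705.LB.witM m).language strict) ^ 2) ^ 2000000 :=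
        Nat.pow_le_pow_left h4 _
    _ ≤ (cost C strict n ^ 2) ^ 2000000 := Nat.pow_le_pow_left (Nat.pow_le_pow_left h3 2) _
    _ = cost C strict n ^ 4000000 := by rw [← pow_mul]

theorem det_of_noChoice {A : Type} [Finite A] (M : LimAut A) (h : NoChoice strict M) :
    ∃ M' : LimAut A, M'.Deterministic ∧ M'.language strict = M.language strict ∧
      M'.size ≤ 2 ^ (170 * (Nat.log 2 M.size + 1) ^ 2) :=
  Pool.Agent.TH588.WD.exists_small_W M strict h

theorem D_le (hC : Between strict C) (n : ℕ) :
    D strict n ≤ 2 ^ (170 * (Nat.log 2 (cost C strict n) + 1) ^ 2) := by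
  unfold D
  rcases Set.eq_empty_or_nonempty (costs strict n) with h | h
  · rw [h, csSup_empty]
    exact Nat.zero_le _
  · refine csSup_le h ?_
    rintro s ⟨A, hA, M, hM, rfl⟩
    obtain ⟨M1, h1, h2, h3⟩ := sizeIn_mem hC M
    obtain ⟨M2, h4, h5, h6⟩ := det_of_noChoice M1 (hC.noChoice _ _ h1)
    have h7 : detSize strict (M.language strict) ≤ M2.size :=
      Nat.sInf_le ⟨M2, h4, h5.trans h2, rfl⟩
    have h8 : M1.size ≤ cost C strict n := by
      rw [h3]
      exact le_csSup (cost_bdd hC n) ⟨A, hA, M, hM, rfl⟩
    refine (h7.trans h6).trans (Nat.pow_le_pow_right (by omega) (Nat.mul_le_mul_left _ ?_))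
    exact Nat.pow_le_pow_left (Nat.add_le_add_right (Nat.log_mono_right h8) 1) 2

theorem cost_le_D (hd : ∀ (A : Type) (M : LimAut A),
    M.Deterministic → C A M) (n : ℕ) : cost C strict n ≤ D strict n := by
  have hbdd : BddAbove (costs strict n) := by
    refine ⟨2 ^ ((n + 2) ^ 4), ?_⟩
    rintro s ⟨A, hA, M, hM, rfl⟩
    obtain ⟨M', h1, h2, h3⟩ := upper M strict
    have h4 : detSize strict (M.language strict) ≤ M'.size := Nat.sInf_le ⟨M', h1, h2, rfl⟩
    refine (h4.trans h3).trans (Nat.pow_le_pow_right (by omega) ?_)
    exact Nat.pow_le_pow_left (by omega) 4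
  unfold cost
  rcases Set.eq_empty_or_nonempty (costsIn C strict n) with h | h
  · rw [h, csSup_empty]
    exact Nat.zero_le _
  · refine csSup_le h ?_
    rintro s ⟨A, hA, M, hM, rfl⟩
    have hne : {s | ∃ M' : LimAut A, M'.Deterministic ∧
        M'.language strict = M.language strict ∧ M'.size = s}.Nonempty := by
      obtain ⟨M', h1, h2, h3⟩ := upper M strict
      exact ⟨_, M', h1, h2, rfl⟩
    obtain ⟨M1, h1, h2, h3⟩ := Nat.sInf_mem hne
    have h4 : sizeIn C strict (M.language strict) ≤ M1.size :=
      Nat.sInf_le ⟨M1, hd _ _ h1, h2, rfl⟩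
    have h5 : M1.size = detSize strict (M.language strict) := h3
    rw [h5] at h4
    exact h4.trans (le_csSup hbdd ⟨A, hA, M, hM, rfl⟩)

theorem log_theta (hC : Between strict C) :
    (fun n : ℕ => Real.log (cost C strict n)) =Θ[atTop] fun n : ℕ => (n : ℝ) ^ 2 := by
  have hlog2 : 0 < Real.log 2 := Real.log_pos (by norm_num)
  constructor
  · refine Asymptotics.IsBigO.of_bound (2 * Real.log 2) ?_
    filter_upwards with n
    rw [Real.norm_of_nonneg (Real.log_natCast_nonneg _), Real.norm_of_nonneg (by positivity)]
    have h1 := cost_le hC n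
    rcases Nat.eq_zero_or_pos (cost C strict n) with h0 | h0
    · rw [h0]
      simp only [Nat.cast_zero, Real.log_zero]
      positivity
    have h2 : (cost C strict n : ℝ) ≤ (2 : ℝ) ^ (2 * n ^ 2) := by
      exact_mod_cast h1
    have h3 : Real.log (cost C strict n) ≤ Real.log ((2 : ℝ) ^ (2 * n ^ 2)) :=
      Real.log_le_log (by exact_mod_cast h0) h2
    rw [Real.log_pow] at h3
    refine h3.trans ?_
    push_cast
    exact le_of_eq (by ring)
  · refine Asymptotics.IsBigO.of_bound (4000000 / Real.log 2) ?_
    filter_upwards [eventually_ge_atTop 66500] with n hn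
    rw [Real.norm_of_nonneg (Real.log_natCast_nonneg _), Real.norm_of_nonneg (by positivity)]
    have h1 := cost_lower hC n hn
    have h2 : (2 : ℝ) ^ (n ^ 2) ≤ (cost C strict n : ℝ) ^ 4000000 := by exact_mod_cast h1
    have h3 : Real.log ((2 : ℝ) ^ (n ^ 2)) ≤ Real.log ((cost C strict n : ℝ) ^ 4000000) :=
      Real.log_le_log (by positivity) h2
    rw [Real.log_pow, Real.log_pow] at h3
    push_cast at h3
    rw [div_mul_eq_mul_div, le_div_iff₀ hlog2]
    exact h3

end

/-- **The cost of removing the choice what to write is `2 ^ Θ(n ^ 2)`, and the cost `D(n)` of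
determinizing is at most quasi-polynomial in it.** -/
theorem result (strict : Prop) :
    -- (1) the cost of conversion to any class between one-way nondeterministic finite automata and
    -- automata without choice what to write
    (∀ C : Cls, Between strict C →
      (∀ n : ℕ, cost C strict n ≤ 2 ^ (2 * n ^ 2)) ∧
      (∀ n : ℕ, 66500 ≤ n → 2 ^ (n ^ 2) ≤ cost C strict n ^ 4000000) ∧
      (fun n : ℕ => Real.log (cost C strict n)) =Θ[atTop] (fun n : ℕ => (n : ℝ) ^ 2)) ∧
    -- (2) such classes
    (Between strict clsOneWay ∧ Between strict clsTwoWay ∧ Between strict (clsNoChoice strict) ∧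
      (∀ (A : Type) (M : LimAut A), M.Deterministic → NoChoice strict M)) ∧
    -- (3) comparison with the cost of determinization
    (∀ n : ℕ, cost (clsNoChoice strict) strict n ≤ D strict n) ∧
    (∀ C : Cls, Between strict C → ∀ n : ℕ,
      D strict n ≤ 2 ^ (170 * (Nat.log 2 (cost C strict n) + 1) ^ 2)) ∧
    (∀ n : ℕ, 66500 ≤ n →
      2 ^ (n ^ 2) ≤ D strict n ^ 4000000 ∧ D strict n ≤ 2 ^ (170 * (2 * n ^ 2 + 1) ^ 2)) ∧
    -- (4) the upper bound for single automata, with one-way automata
    (∀ (A : Type) [Finite A] (M : LimAut A), ∃ M' : LimAut A, OneWay M' ∧ NeverRewrites M' ∧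
      M'.language strict = M.language strict ∧
      Nat.card M'.Q = 2 ^ (Nat.card M.Q * Nat.card M.Q) * Nat.card M.Q + 1 ∧
      M'.size ≤ 2 ^ (2 * M.size ^ 2)) ∧
    -- (5) the lower bound for single automata, over an alphabet with five letters
    (∀ m : ℕ, ∃ M : LimAut Pool.Agent.TH705.LB.Ltr, M.size ≤ 1330 * (m + 1) ∧
      (∀ M' : LimAut Pool.Agent.TH705.LB.Ltr, NoChoice strict M' →
        M'.language strict = M.language strict →
          2 ^ (m ^ 2) ≤ Nat.card M'.Q * Nat.card M'.Q + Nat.card M'.Q) ∧
      (∀ M' : LimAut Pool.Agent.TH705.LB.Ltr, M'.Deterministic →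
        M'.language strict = M.language strict →
          2 ^ 2 ^ (m ^ 2) ≤ (Nat.card M'.Q + 1) ^ (Nat.card M'.Q + 1))) := by
  have h3 : ∀ n : ℕ, cost (clsNoChoice strict) strict n ≤ D strict n := fun n =>
    cost_le_D (fun A M h => noChoice_of_deterministic strict M h) n
  refine ⟨fun C hC => ⟨cost_le hC, cost_lower hC, log_theta hC⟩,
    ⟨between_oneWay strict, between_twoWay strict, between_noChoice strict,
      fun A M h => noChoice_of_deterministic strict M h⟩, h3, fun C hC n => D_le hC n, ?_, ?_, ?_⟩
  · intro n hn
    refine ⟨(cost_lower (between_noChoice strict) n hn).trans (Nat.pow_le_pow_left (h3 n) _), ?_⟩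
    refine (D_le (between_noChoice strict) n).trans (Nat.pow_le_pow_right (by omega)
      (Nat.mul_le_mul_left _ (Nat.pow_le_pow_left (Nat.add_le_add_right ?_ 1) 2)))
    have h4 := Nat.log_mono_right (b := 2) (cost_le (between_noChoice strict) n)
    rwa [Nat.log_pow (by omega)] at h4
  · intro A _ M
    exact ⟨nfaM strict M, nfaM_oneWay, nfaM_never, nfaM_language strict, nfaM_card, nfaM_size⟩
  · intro m
    exact ⟨Pool.Agent.TH705.LB.witM m, Pool.Agent.TH705.LB.size_witM m,
      fun M' h1 h2 => lowerNC m strict M' h1 h2, fun M' h1 h2 => lowerD m strict M' h1 h2⟩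

end Pool.Agent.Results.MP_0036f5_lc.WritingChoice
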